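import Pool.Agent.H336.GW.Fill

set_option autoImplicit false

/-! Attaching even numbers of leaves to a graph with an `α`-labelling. -/

namespace Pool.Agent.H336.GW

open Finset

/-- two finite sets with fibers of the same sizes have a bijection respecting the fibers -/
theorem exists_match {V ι : Type} [DecidableEq V] [DecidableEq ι] (L : Finset V) (P : V → ι)
    (I : Finset ℤ) (H : ℤ → ι)
    (h : ∀ i, (L.filter (fun y => P y = i)).card = (I.filter (fun l => H l = i)).card) :
    ∃ F : V → ℤ, (∀ y ∈ L, F y ∈ I ∧ H (F y) = P y) ∧ (∀ y ∈ L, ∀ z ∈ L, F y = F z → y = z) ∧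
      ∀ l ∈ I, ∃ y ∈ L, F y = l := by
  classical
  have h1 : ∀ i, ∃ f : V → ℤ, (∀ y ∈ L, P y = i → f y ∈ I ∧ H (f y) = i) ∧
      (∀ y ∈ L, ∀ z ∈ L, P y = i → P z = i → f y = f z → y = z) ∧
      ∀ l ∈ I, H l = i → ∃ y ∈ L, P y = i ∧ f y = l := by
    intro i
    have e := Finset.equivOfCardEq (h i)
    refine ⟨fun y => if hy : y ∈ L.filter (fun y => P y = i) then (e ⟨y, hy⟩ : ℤ) else 0, ?_, ?_, ?_⟩
    · intro y hy hP
      have hy' : y ∈ L.filter (fun y => P y = i) := Finset.mem_filter.2 ⟨hy, hP⟩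
      simp only [dif_pos hy']
      exact Finset.mem_filter.1 (e ⟨y, hy'⟩).2
    · intro y hy z hz hPy hPz hyz
      have hy' : y ∈ L.filter (fun y => P y = i) := Finset.mem_filter.2 ⟨hy, hPy⟩
      have hz' : z ∈ L.filter (fun y => P y = i) := Finset.mem_filter.2 ⟨hz, hPz⟩
      simp only [dif_pos hy', dif_pos hz'] at hyz
      have := e.injective (Subtype.ext hyz)
      exact congrArg Subtype.val this
    · intro l hl hH
      have hl' : l ∈ I.filter (fun l => H l = i) := Finset.mem_filter.2 ⟨hl, hH⟩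
      obtain ⟨⟨y, hy⟩, hye⟩ := e.surjective ⟨l, hl'⟩
      have hy1 := Finset.mem_filter.1 hy
      refine ⟨y, hy1.1, hy1.2, ?_⟩
      simp only [dif_pos hy]
      rw [hye]
  choose f f1 f2 f3 using h1
  refine ⟨fun y => f (P y) y, ?_, ?_, ?_⟩
  · intro y hy
    exact f1 (P y) y hy rfl
  · intro y hy z hz hyz
    simp only at hyz
    have hPy := (f1 (P y) y hy rfl).2
    have hPz := (f1 (P z) z hz rfl).2
    have hP : P y = P z := by rw [← hPy, ← hPz, hyz]
    refine f2 (P y) y hy z hz rfl hP.symm ?_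
    rw [hyz, hP]
  · intro l hl
    obtain ⟨y, hy, hP, hf⟩ := f3 (H l) l hl rfl
    refine ⟨y, hy, ?_⟩
    simp only [hP]
    exact hf

theorem core {V : Type} [Fintype V] [DecidableEq V] (T : SimpleGraph V) (S : Finset V) (k p : ℕ)
    (g : V → ℕ) (π : V → V) (hp : 1 ≤ p) (hpk : p < k) (hq : k ≤ 2 * p + 1)
    (hg : ∀ x ∈ S, g x < k) (ginj : ∀ x ∈ S, ∀ y ∈ S, g x = g y → x = y) (hcard : S.card = k)
    (hal : ∀ j, 1 ≤ j → j < k → ∃ x ∈ S, ∃ y ∈ S, T.Adj x y ∧ g x < p ∧ p ≤ g y ∧ g y = g x + j)
    (hπ : ∀ y, y ∉ S → π y ∈ S ∧ T.Adj (π y) y)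
    (heven : ∀ t < k, Even (Sᶜ.filter (fun y => g (π y) = t)).card)
    (hpos : ∀ t < k, 0 < (Sᶜ.filter (fun y => g (π y) = t)).card)
    (hsmall : 2 * (p - 1) ≤ (Sᶜ.filter (fun y => p ≤ g (π y))).card) :
    ∃ F : V → ℤ, Function.Injective F ∧ (∀ v, 0 ≤ F v ∧ F v ≤ (Fintype.card V : ℤ) - 1) ∧
      ∀ j : ℤ, 1 ≤ j → j ≤ (Fintype.card V : ℤ) - 1 → ∃ x y, T.Adj x y ∧ |F x - F y| = j := by
  classical
  obtain ⟨q, rfl⟩ : ∃ q, k = p + q + 1 := ⟨k - p - 1, by omega⟩
  obtain ⟨a, rfl⟩ : ∃ a, p = a + 1 := ⟨p - 1, by omega⟩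
  set c : ℕ → ℕ := fun t => (Sᶜ.filter (fun y => g (π y) = t)).card / 2 with hcdef
  set d : ℕ → ℕ := fun s => (Sᶜ.filter (fun y => g (π y) = a + 1 + q - s)).card / 2 with hddef
  have hc1 : ∀ t < a + 1 + q + 1, 1 ≤ c t := by
    intro t ht
    have h1 := heven t ht
    have h2 := hpos t ht
    obtain ⟨r, hr⟩ := h1
    simp only [hcdef]
    omega
  have hc2 : ∀ t < a + 1 + q + 1, 2 * c t = (Sᶜ.filter (fun y => g (π y) = t)).card := by
    intro t ht
    have h1 := heven t ht
    obtain ⟨r, hr⟩ := h1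
    simp only [hcdef]
    omega
  have hd1 : ∀ s, 1 ≤ d s := by
    intro s
    have h1 := heven (a + 1 + q - s) (by omega)
    have h2 := hpos (a + 1 + q - s) (by omega)
    obtain ⟨r, hr⟩ := h1
    simp only [hddef]
    omega
  have hd2 : ∀ s, 2 * d s = (Sᶜ.filter (fun y => g (π y) = a + 1 + q - s)).card := by
    intro s
    have h1 := heven (a + 1 + q - s) (by omega)
    obtain ⟨r, hr⟩ := h1
    simp only [hddef]
    omega
  have hLg : ∀ y ∈ Sᶜ, g (π y) < a + 1 + q + 1 := by
    intro y hy
    exact hg _ (hπ y (Finset.mem_compl.1 hy)).1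
  have hsum : a ≤ ∑ s ∈ Finset.range (q + 1), d s := by
    have h1 : (Sᶜ.filter (fun y => a + 1 ≤ g (π y))).card =
        ∑ s ∈ Finset.range (q + 1), 2 * d s := by
      rw [Finset.card_eq_sum_card_fiberwise (f := fun y => a + 1 + q - g (π y))
        (t := Finset.range (q + 1))]
      · refine Finset.sum_congr rfl (fun s hs => ?_)
        rw [hd2]
        rw [Finset.mem_range] at hs
        congr 1
        ext y
        simp only [Finset.mem_filter]
        constructor
        · rintro ⟨⟨hy, h2⟩, h3⟩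
          have := hLg y hy
          exact ⟨hy, by omega⟩
        · rintro ⟨hy, h2⟩
          have := hLg y hy
          exact ⟨⟨hy, by omega⟩, by omega⟩
      · intro y hy
        have hy' := Finset.mem_filter.1 (Finset.mem_coe.1 hy)
        have := hLg y hy'.1
        simp only [Finset.coe_range, Set.mem_Iio]
        omega
    rw [← Finset.mul_sum] at h1
    rw [h1] at hsmall
    omega
  obtain ⟨N, hGo⟩ := stair (a + q) a q c d rfl (fun t ht => hc1 t (by omega)) (fun s _ => hd1 s) hsum
    (by have := hc1 a (by omega); omega) (Or.inr (Or.inl (hc1 a (by omega))))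
  obtain ⟨H, H1, H2⟩ := hGo.fill 1 (N + a + q + 1) le_rfl (by ring)
  set n : ℤ := (N : ℤ) + a + q + 1 with hn
  -- the hub of a leaf
  set P : V → ℕ ⊕ ℕ := fun y => if g (π y) < a + 1 then Sum.inl (g (π y)) else
    Sum.inr (a + 1 + q - g (π y)) with hP
  have hfib : ∀ i, (Sᶜ.filter (fun y => P y = i)).card =
      ((Icc (1 + (a : ℤ)) (n - 1 - q)).filter (fun l => H l = i)).card := by
    intro i
    rw [H2]
    rcases i with t | s
    · simp only [MM, Sum.elim_inl]
      by_cases ht : t ≤ a
      · rw [if_pos ht, hc2 t (by omega)]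
        congr 1
        ext y
        simp only [Finset.mem_filter, hP]
        constructor
        · rintro ⟨hy, h2⟩
          refine ⟨hy, ?_⟩
          split_ifs at h2 with h3
          simpa using h2
        · rintro ⟨hy, h2⟩
          refine ⟨hy, ?_⟩
          rw [if_pos (by omega), h2]
      · rw [if_neg ht, Finset.card_eq_zero, Finset.filter_eq_empty_iff]
        intro y hy h2
        simp only [hP] at h2
        split_ifs at h2 with h3
        have : g (π y) = t := by simpa using h2
        omega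
    · simp only [MM, Sum.elim_inr]
      by_cases hs : s ≤ q
      · rw [if_pos hs, hd2 s]
        congr 1
        ext y
        simp only [Finset.mem_filter, hP]
        constructor
        · rintro ⟨hy, h2⟩
          refine ⟨hy, ?_⟩
          have := hLg y hy
          split_ifs at h2 with h3
          have : a + 1 + q - g (π y) = s := by simpa using h2
          omega
        · rintro ⟨hy, h2⟩
          refine ⟨hy, ?_⟩
          rw [if_neg (by omega), h2]
          congr 1
          omega
      · rw [if_neg hs, Finset.card_eq_zero, Finset.filter_eq_empty_iff]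
        intro y hy h2
        simp only [hP] at h2
        have := hLg y hy
        split_ifs at h2 with h3
        have : a + 1 + q - g (π y) = s := by simpa using h2
        omega
  obtain ⟨F, F1, F2, F3⟩ := exists_match Sᶜ P (Icc (1 + (a : ℤ)) (n - 1 - q)) H hfib
  have hN : Sᶜ.card = N := by
    have h1 : Sᶜ.card = (Icc (1 + (a : ℤ)) (n - 1 - q)).card := by
      refine Finset.card_bij (fun y _ => F y) (fun y hy => (F1 y hy).1)
        (fun y hy z hz => F2 y hy z hz) (fun l hl => ?_)
      obtain ⟨y, hy, h⟩ := F3 l hl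
      exact ⟨y, hy, h⟩
    rw [h1, Int.card_Icc]
    omega
  have hV : (Fintype.card V : ℤ) - 1 = n := by
    have h1 := Finset.card_add_card_compl S
    rw [hcard, hN] at h1
    omega
  rw [hV]
  set G : V → ℤ := fun x => if x ∈ S then (if g x < a + 1 then (g x : ℤ) else
    n - (a + 1 + q) + g x) else F x with hG
  have G1 : ∀ x ∈ S, g x < a + 1 → G x = g x := fun x hx h => by
    simp only [hG]; rw [if_pos hx, if_pos h]
  have G2 : ∀ x ∈ S, ¬ g x < a + 1 → G x = n - (a + 1 + q) + g x := fun x hx h => by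
    simp only [hG]; rw [if_pos hx, if_neg h]
  have G3 : ∀ x, x ∉ S → G x = F x := fun x hx => by
    simp only [hG]; rw [if_neg hx]
  have G4 : ∀ x, x ∉ S → 1 + (a : ℤ) ≤ F x ∧ F x ≤ n - 1 - q := fun x hx =>
    Finset.mem_Icc.1 (F1 x (Finset.mem_compl.2 hx)).1
  refine ⟨G, ?_, ?_, ?_⟩
  · intro x y hxy
    by_cases hx : x ∈ S <;> by_cases hy : y ∈ S
    · have hx1 := hg x hx
      have hy1 := hg y hy
      refine ginj x hx y hy ?_
      by_cases h1 : g x < a + 1 <;> by_cases h2 : g y < a + 1
      · rw [G1 x hx h1, G1 y hy h2] at hxy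
        omega
      · rw [G1 x hx h1, G2 y hy h2] at hxy
        omega
      · rw [G2 x hx h1, G1 y hy h2] at hxy
        omega
      · rw [G2 x hx h1, G2 y hy h2] at hxy
        omega
    · exfalso
      have hx1 := hg x hx
      have := G4 y hy
      rw [G3 y hy] at hxy
      by_cases h1 : g x < a + 1
      · rw [G1 x hx h1] at hxy
        omega
      · rw [G2 x hx h1] at hxy
        omega
    · exfalso
      have hy1 := hg y hy
      have := G4 x hx
      rw [G3 x hx] at hxy
      by_cases h1 : g y < a + 1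
      · rw [G1 y hy h1] at hxy
        omega
      · rw [G2 y hy h1] at hxy
        omega
    · rw [G3 x hx, G3 y hy] at hxy
      exact F2 x (Finset.mem_compl.2 hx) y (Finset.mem_compl.2 hy) hxy
  · intro x
    by_cases hx : x ∈ S
    · have hx1 := hg x hx
      by_cases h1 : g x < a + 1
      · rw [G1 x hx h1]
        omega
      · rw [G2 x hx h1]
        omega
    · have := G4 x hx
      rw [G3 x hx]
      omega
  · intro j hj1 hj2
    by_cases hj : j ≤ n - 1 - a - q
    · obtain ⟨l, hl, hlj⟩ := H1 j (by rw [Finset.mem_Icc]; omega)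
      obtain ⟨y, hy, hFy⟩ := F3 l hl
      have hy' := Finset.mem_compl.1 hy
      have hHy := (F1 y hy).2
      refine ⟨y, π y, (hπ y hy').2.symm, ?_⟩
      rw [G3 y hy', hFy, ← hlj, ← hFy, hHy]
      congr 2
      have hgy := hLg y hy
      simp only [hP]
      by_cases h1 : g (π y) < a + 1
      · rw [G1 _ (hπ y hy').1 h1, if_pos h1]
        simp [lab]
      · rw [G2 _ (hπ y hy').1 h1, if_neg h1]
        simp only [lab, Sum.elim_inr]
        omega
    · obtain ⟨x, hx, y, hy, hadj, h1, h2, h3⟩ := hal (j - (n - 1 - a - q)).toNat (by omega) (by omega)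
      refine ⟨x, y, hadj, ?_⟩
      rw [G1 x hx h1, G2 y hy (by omega), abs_of_nonpos (by omega)]
      omega

end Pool.Agent.H336.GW
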