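import Pool.Agent.H336.GW.Walk

set_option autoImplicit false

/-! A grid walk gives a way to attach the labels of an interval to the hubs. -/

namespace Pool.Agent.H336.GW

open Finset

/-- the label of a hub -/
def lab (n : ℤ) : ℕ ⊕ ℕ → ℤ := Sum.elim (fun t => (t : ℤ)) (fun s => n - s)

/-- the labels of `I` can be attached to the hubs, `m h` labels to the hub `h`, with all differences
of `K` -/
def Fill (n : ℤ) (I K : Finset ℤ) (m : ℕ ⊕ ℕ → ℕ) : Prop :=
  ∃ H : ℤ → ℕ ⊕ ℕ, (∀ k ∈ K, ∃ l ∈ I, |l - lab n (H l)| = k) ∧
    ∀ h, (I.filter (fun l => H l = h)).card = m h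

theorem Fill.insert {n : ℤ} {I K : Finset ℤ} {m : ℕ ⊕ ℕ → ℕ} (h : Fill n I K m) (l : ℤ)
    (hl : l ∉ I) (x : ℕ ⊕ ℕ) (k : ℤ) (hk : |l - lab n x| = k) :
    Fill n (insert l I) (insert k K) (m + Pi.single x 1) := by
  obtain ⟨H, h1, h2⟩ := h
  refine ⟨Function.update H l x, ?_, ?_⟩
  · intro k' hk'
    rw [Finset.mem_insert] at hk'
    rcases hk' with rfl | hk'
    · exact ⟨l, Finset.mem_insert_self _ _, by rw [Function.update_self]; exact hk⟩
    · obtain ⟨l', hl', hk''⟩ := h1 k' hk'
      refine ⟨l', Finset.mem_insert_of_mem hl', ?_⟩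
      rw [Function.update_of_ne (show l' ≠ l by rintro rfl; exact hl hl')]
      exact hk''
  · intro y
    rw [Finset.filter_insert, Function.update_self]
    have h3 : I.filter (fun l' => Function.update H l x l' = y) = I.filter (fun l' => H l' = y) := by
      refine Finset.filter_congr (fun l' hl' => ?_)
      rw [Function.update_of_ne (show l' ≠ l by rintro rfl; exact hl hl')]
    by_cases hy : x = y
    · rw [if_pos hy, Finset.card_insert_of_notMem, h3, h2]
      · subst hy
        simp
      · intro hh
        exact hl (Finset.mem_of_mem_filter _ hh)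
    · rw [if_neg hy, h3, h2]
      simp [Pi.single_eq_of_ne (Ne.symm hy)]

theorem Go.fill {N : ℕ} {m : ℕ ⊕ ℕ → ℕ} {a b a' b' : ℤ} (h : Go N m a b a' b') :
    ∀ Y n : ℤ, 1 ≤ Y → n = 2 * Y + a + b + N - 1 →
      Fill n (Icc (Y + a) (n - Y - b)) (Icc Y (n - Y - a - b)) m := by
  induction h with
  | nil a b =>
    intro Y n hY hn
    rw [Finset.Icc_eq_empty (by push_cast at hn; omega), Finset.Icc_eq_empty (by push_cast at hn; omega)]
    exact ⟨fun _ => Sum.inl 0, by simp, by simp⟩
  | @up N m b a' b' t h ih =>
    intro Y n hY hn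
    push_cast at hn
    have h1 := (ih Y n hY (by omega)).insert (n - Y - b) (by rw [Finset.mem_Icc]; omega)
      (Sum.inl t) (n - Y - t - b) (by
        simp only [lab, Sum.elim_inl]
        rw [abs_of_nonneg (by omega)]
        ring)
    convert h1 using 1
    · ext z
      simp only [Finset.mem_Icc, Finset.mem_insert]
      omega
    · ext z
      simp only [Finset.mem_Icc, Finset.mem_insert]
      omega
  | @down N m b a' b' t h ih =>
    intro Y n hY hn
    push_cast at hn
    have h1 := (ih (Y + 1) n (by omega) (by omega)).insert (Y + t) (by rw [Finset.mem_Icc]; omega)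
      (Sum.inl t) Y (by
        simp only [lab, Sum.elim_inl]
        rw [abs_of_nonneg (by omega)]
        ring)
    convert h1 using 1
    · ext z
      simp only [Finset.mem_Icc, Finset.mem_insert]
      omega
    · ext z
      simp only [Finset.mem_Icc, Finset.mem_insert]
      omega
  | @right N m a a' b' s h ih =>
    intro Y n hY hn
    push_cast at hn
    have h1 := (ih Y n hY (by omega)).insert (Y + a) (by rw [Finset.mem_Icc]; omega)
      (Sum.inr s) (n - Y - a - s) (by
        simp only [lab, Sum.elim_inr]
        rw [abs_of_nonpos (by omega)]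
        ring)
    convert h1 using 1
    · ext z
      simp only [Finset.mem_Icc, Finset.mem_insert]
      omega
    · ext z
      simp only [Finset.mem_Icc, Finset.mem_insert]
      omega
  | @left N m a a' b' s h ih =>
    intro Y n hY hn
    push_cast at hn
    have h1 := (ih (Y + 1) n (by omega) (by omega)).insert (n - Y - s) (by rw [Finset.mem_Icc]; omega)
      (Sum.inr s) Y (by
        simp only [lab, Sum.elim_inr]
        rw [abs_of_nonpos (by omega)]
        ring)
    convert h1 using 1
    · ext z
      simp only [Finset.mem_Icc, Finset.mem_insert]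
      omega
    · ext z
      simp only [Finset.mem_Icc, Finset.mem_insert]
      omega

end Pool.Agent.H336.GW
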