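import Pool.Agent.H336.GW.Tree

set_option autoImplicit false

/-! Even numbers of leaves at all vertices of a tree with an `α`-labelling. -/

namespace Pool.Agent.H336.GW

open Finset

theorem even_leaves {V : Type} [Fintype V] {T : SimpleGraph V} (hT : T.IsTree)
    (h2 : ∃ x y, T.Adj x y ∧ x ∈ inner T ∧ y ∈ inner T)
    (hα : ∀ (col : inner T → Bool) (b : Bool),
      (∀ u v, (T.induce (inner T)).Adj u v → col u ≠ col v) →
      ∃ (θ : ℕ) (f : inner T → ℕ), Function.Injective f ∧
        (∀ x, f x ≤ (T.induce (inner T)).edgeSet.ncard) ∧ (∀ x, col x = b ↔ f x < θ) ∧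
        ∀ u v u' v', (T.induce (inner T)).Adj u v → (T.induce (inner T)).Adj u' v' →
          Int.natAbs ((f u : ℤ) - (f v : ℤ)) = Int.natAbs ((f u' : ℤ) - (f v' : ℤ)) →
          s(u, v) = s(u', v'))
    (heven : ∀ x ∈ inner T, 0 < {y | T.Adj x y ∧ y ∉ inner T}.ncard ∧
      Even {y | T.Adj x y ∧ y ∉ inner T}.ncard)
    (hbal : ∀ c : V → Bool, (∀ u v, T.Adj u v → c u ≠ c v) → ∀ b,
      2 * {x | x ∈ inner T ∧ c x = b}.ncard ≤ {y | y ∉ inner T ∧ c y = b}.ncard + 2) :
    ∃ f : V → ℕ, Function.Injective f ∧ (∀ v, f v ≤ T.edgeSet.ncard) ∧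
      ∀ u v u' v', T.Adj u v → T.Adj u' v' →
        Int.natAbs ((f u : ℤ) - (f v : ℤ)) = Int.natAbs ((f u' : ℤ) - (f v' : ℤ)) →
        s(u, v) = s(u', v') := by
  classical
  obtain ⟨x0, y0, h0, hx0, hy0⟩ := h2
  -- the colouring
  obtain ⟨c, hc⟩ : ∃ c : V → Bool, ∀ u v, T.Adj u v → c u ≠ c v := by
    have C := hT.coloringTwo
    refine ⟨fun v => decide (C v = 0), fun u v h => ?_⟩
    have h3 := C.valid h
    intro h1
    apply h3
    have h4 := decide_eq_decide.1 h1
    generalize C u = i at *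
    generalize C v = j at *
    revert i j
    decide
  -- the larger class
  obtain ⟨b, hb⟩ : ∃ b, {x | x ∈ inner T ∧ c x = !b}.ncard ≤ {x | x ∈ inner T ∧ c x = b}.ncard := by
    rcases le_total {x | x ∈ inner T ∧ c x = true}.ncard {x | x ∈ inner T ∧ c x = false}.ncard
      with h | h
    · exact ⟨false, h⟩
    · exact ⟨true, h⟩
  obtain ⟨θ, f, f1, f2, f3, f4⟩ := hα (fun x => c x) b (fun u v h => hc u v h)
  have hk := edges_card (induce_tree hT ⟨x0, hx0⟩)
  set k := Fintype.card (inner T) with hkdef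
  have f2' : ∀ x, f x < k := fun x => by have := f2 x; omega
  -- surjectivity
  have fsur : ∀ t < k, ∃ x, f x = t := by
    intro t ht
    have h1 := Finset.surjOn_of_injOn_of_card_le (s := (Finset.univ : Finset (inner T)))
      (t := Finset.range k) f (fun x _ => by simpa using f2' x) (f1.injOn) (by
        rw [Finset.card_range, Finset.card_univ])
    obtain ⟨x, -, hx⟩ := h1 (show t ∈ ((Finset.range k : Finset ℕ) : Set ℕ) by simpa using ht)
    exact ⟨x, hx⟩
  obtain ⟨g, hg⟩ : ∃ g : V → ℕ, ∀ x (hx : x ∈ inner T), g x = f ⟨x, hx⟩ :=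
    ⟨fun x => if h : x ∈ inner T then f ⟨x, h⟩ else 0, fun x hx => by simp only [dif_pos hx]⟩
  have hgk : ∀ x ∈ inner T, g x < k := fun x hx => by rw [hg x hx]; exact f2' _
  have ginj : ∀ x ∈ inner T, ∀ y ∈ inner T, g x = g y → x = y := fun x hx y hy h => by
    rw [hg x hx, hg y hy] at h
    exact congrArg Subtype.val (f1 h)
  have gsur : ∀ t < k, ∃ x ∈ inner T, g x = t := by
    intro t ht
    obtain ⟨⟨x, hx⟩, h⟩ := fsur t ht
    exact ⟨x, hx, by rw [hg x hx]; exact h⟩
  have gcol : ∀ x ∈ inner T, (c x = b ↔ g x < θ) := fun x hx => by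
    rw [hg x hx]
    exact f3 ⟨x, hx⟩
  have hne : ∀ β γ : Bool, β ≠ γ → (β = !γ) := by decide
  have hθ1 : 1 ≤ θ ∧ θ < k := by
    have h1 := hc x0 y0 h0
    by_cases hb0 : c x0 = b
    · have h3 := (gcol x0 hx0).1 hb0
      have h4 : ¬ c y0 = b := fun h => h1 (hb0.trans h.symm)
      rw [gcol y0 hy0] at h4
      have := hgk y0 hy0
      omega
    · have h4 : c y0 = b := by
        revert h1 hb0
        cases c x0 <;> cases c y0 <;> cases b <;> simp
      rw [gcol x0 hx0] at hb0
      rw [gcol y0 hy0] at h4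
      have := hgk x0 hx0
      omega
  have hA : {x | x ∈ inner T ∧ c x = b}.ncard = θ := by
    rw [← Set.InjOn.ncard_image (f := g) (fun x hx y hy h => ginj x hx.1 y hy.1 h)]
    have h1 : g '' {x | x ∈ inner T ∧ c x = b} = ((Finset.range θ : Finset ℕ) : Set ℕ) := by
      ext t
      simp only [Set.mem_image, Set.mem_ofPred_eq, Finset.coe_range, Set.mem_Iio]
      constructor
      · rintro ⟨x, ⟨hx, hcx⟩, rfl⟩
        exact (gcol x hx).1 hcx
      · intro ht
        obtain ⟨x, hx, rfl⟩ := gsur t (by omega)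
        exact ⟨x, ⟨hx, (gcol x hx).2 ht⟩, rfl⟩
    rw [h1, Set.ncard_coe_finset, Finset.card_range]
  have hB : {x | x ∈ inner T ∧ c x = !b}.ncard = k - θ := by
    rw [← Set.InjOn.ncard_image (f := g) (fun x hx y hy h => ginj x hx.1 y hy.1 h)]
    have h1 : g '' {x | x ∈ inner T ∧ c x = !b} = ((Finset.Ico θ k : Finset ℕ) : Set ℕ) := by
      ext t
      simp only [Set.mem_image, Set.mem_ofPred_eq, Finset.coe_Ico, Set.mem_Ico]
      constructor
      · rintro ⟨x, ⟨hx, hcx⟩, rfl⟩
        refine ⟨?_, hgk x hx⟩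
        by_contra h
        have := (gcol x hx).2 (by omega)
        rw [hcx] at this
        revert this
        cases b <;> simp
      · rintro ⟨ht1, ht2⟩
        obtain ⟨x, hx, rfl⟩ := gsur t ht2
        refine ⟨x, ⟨hx, hne _ _ (fun h => ?_)⟩, rfl⟩
        have := (gcol x hx).1 h
        omega
    rw [h1, Set.ncard_coe_finset, Nat.card_Ico]
  rw [hA, hB] at hb
  -- the neighbours of the leaves
  have hπ0 : ∀ y, ∃ u, y ∉ inner T → T.Adj u y ∧ u ∈ inner T := by
    intro y
    by_cases hy : y ∈ inner T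
    · exact ⟨y, fun h => absurd hy h⟩
    · obtain ⟨u, hu⟩ := exists_nbr hT.1 hx0 hy
      exact ⟨u, fun _ => hu⟩
  choose π hπ using hπ0
  have hπu : ∀ y, y ∉ inner T → ∀ x, T.Adj x y → x = π y := by
    intro y hy x hxy
    by_contra hne
    exact hy (two_le_of hxy.symm (hπ y hy).1.symm hne)
  set S : Finset V := (inner T).toFinset with hS
  have hSm : ∀ x, x ∈ S ↔ x ∈ inner T := fun x => by simp [hS]
  have hSc : ∀ x, x ∈ Sᶜ ↔ x ∉ inner T := fun x => by rw [Finset.mem_compl, hSm]
  have hleaf : ∀ t < k, ∃ x ∈ inner T, (Sᶜ.filter (fun y => g (π y) = t)).card =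
      {y | T.Adj x y ∧ y ∉ inner T}.ncard := by
    intro t ht
    obtain ⟨x, hx, rfl⟩ := gsur t ht
    refine ⟨x, hx, ?_⟩
    rw [← Set.ncard_coe_finset]
    congr 1
    ext y
    simp only [Finset.coe_filter, Set.mem_ofPred_eq, hSc]
    constructor
    · rintro ⟨hy, h⟩
      have := ginj _ (hπ y hy).2 x hx h
      rw [← this]
      exact ⟨(hπ y hy).1, hy⟩
    · rintro ⟨h, hy⟩
      refine ⟨hy, ?_⟩
      rw [← hπu y hy x h]
  obtain ⟨F, F1, F2, F3⟩ := core T S k θ g π hθ1.1 hθ1.2 (by omega)
    (fun x hx => hgk x ((hSm x).1 hx))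
    (fun x hx y hy h => ginj x ((hSm x).1 hx) y ((hSm y).1 hy) h)
    (by rw [hS, Set.toFinset_card])
    (by
      intro j hj1 hj2
      obtain ⟨⟨u, hu⟩, ⟨v, hv⟩, h, hd⟩ := all_of_distinct (G := T.induce (inner T))
        (fun x => (f x : ℤ)) (k - 1) (by omega) (by
          intro u v h
          have h1 := f2' u
          have h2 := f2' v
          have h3 : f u ≠ f v := fun h3 => h.ne (f1 h3)
          constructor <;> omega) (fun u v u' v' h h' => f4 u v u' v' h h') j hj1 (by omega)
      have h' : T.Adj u v := h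
      have hcuv := hc u v h'
      have hgu := gcol u hu
      have hgv := gcol v hv
      simp only [← hg] at hd
      by_cases hcu : c u = b
      · have hcv : ¬ c v = b := fun h => hcuv (hcu.trans h.symm)
        rw [hgu] at hcu
        rw [hgv] at hcv
        exact ⟨u, (hSm u).2 hu, v, (hSm v).2 hv, h', hcu, by omega, by omega⟩
      · have hcv : c v = b := by
          revert hcuv hcu
          cases c u <;> cases c v <;> cases b <;> simp
        rw [hgu] at hcu
        rw [hgv] at hcv
        exact ⟨v, (hSm v).2 hv, u, (hSm u).2 hu, h'.symm, hcv, by omega, by omega⟩)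
    (fun y hy => by
      rw [hSm] at hy ⊢
      exact ⟨(hπ y hy).2, (hπ y hy).1⟩)
    (by
      intro t ht
      obtain ⟨x, hx, h⟩ := hleaf t ht
      rw [h]
      exact (heven x hx).2)
    (by
      intro t ht
      obtain ⟨x, hx, h⟩ := hleaf t ht
      rw [h]
      exact (heven x hx).1)
    (by
      have h1 := hbal c hc b
      rw [hA] at h1
      have h3 : (Sᶜ.filter (fun y => θ ≤ g (π y))).card = {y | y ∉ inner T ∧ c y = b}.ncard := by
        rw [← Set.ncard_coe_finset]
        congr 1
        ext y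
        simp only [Finset.coe_filter, Set.mem_ofPred_eq, hSc]
        constructor
        · rintro ⟨hy, h⟩
          refine ⟨hy, ?_⟩
          have h4 := hc _ _ (hπ y hy).1
          have h5 : ¬ c (π y) = b := by
            rw [gcol _ (hπ y hy).2]
            omega
          revert h4 h5
          cases c (π y) <;> cases c y <;> cases b <;> simp
        · rintro ⟨hy, h⟩
          refine ⟨hy, ?_⟩
          have h4 := hc _ _ (hπ y hy).1
          by_contra h6
          have h5 : c (π y) = b := by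
            rw [gcol _ (hπ y hy).2]
            omega
          exact h4 (h5.trans h.symm)
      rw [h3]
      omega)
  have hm := edges_card hT
  have hr : ∀ u v, T.Adj u v → 1 ≤ Int.natAbs (F u - F v) ∧ Int.natAbs (F u - F v) ≤
      T.edgeSet.ncard := by
    intro u v h
    have h1 : F u ≠ F v := fun h1 => h.ne (F1 h1)
    have h3 := F2 u
    have h4 := F2 v
    constructor <;> omega
  have hd := distinct_of_all F T.edgeSet.ncard rfl hr (by
    intro j hj1 hj2
    obtain ⟨x, y, h, h'⟩ := F3 j (by omega) (by omega)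
    rw [Int.abs_eq_natAbs] at h'
    exact ⟨x, y, h, by exact_mod_cast h'⟩)
  refine ⟨fun v => (F v).toNat, ?_, ?_, ?_⟩
  · intro x y h
    have h1 := F2 x
    have h3 := F2 y
    simp only at h
    exact F1 (by omega)
  · intro v
    have h1 := F2 v
    simp only
    omega
  · intro u v u' v' h h' hh
    have h1 := F2 u
    have h3 := F2 v
    have h4 := F2 u'
    have h5 := F2 v'
    refine hd u v u' v' h h' ?_
    simp only at hh
    omega

end Pool.Agent.H336.GW
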