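import Pool.Agent.H336.GW.Tree
import Pool.Agent.TH56.CL.Rlx

set_option autoImplicit false

/-! A tree which becomes a path after deleting its leaves has an `α`-labelling. -/

namespace Pool.Agent.H336.GW

theorem derived_le {W : Type} [Finite W] (G : SimpleGraph W) (n : ℕ)
    (e : G.induce (inner G) ≃g SimpleGraph.pathGraph n) :
    {x : W | 2 ≤ (G.neighborSet x).ncard ∧
      {y : W | G.Adj x y ∧ 2 ≤ (G.neighborSet y).ncard}.ncard ≤ 1}.ncard ≤ 2 := by
  classical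
  obtain ⟨φ, hφ⟩ : ∃ φ : W → ℕ, ∀ x (hx : x ∈ inner G), φ x = (e ⟨x, hx⟩ : Fin n).val :=
    ⟨fun x => if h : x ∈ inner G then (e ⟨x, h⟩ : Fin n).val else 0, fun x hx => by
      simp only [dif_pos hx]⟩
  have h1 : ∀ x ∈ {x : W | 2 ≤ (G.neighborSet x).ncard ∧
      {y : W | G.Adj x y ∧ 2 ≤ (G.neighborSet y).ncard}.ncard ≤ 1},
      φ x ∈ ({0, n - 1} : Set ℕ) := by
    rintro x ⟨hx, hx1⟩
    have hx' : x ∈ inner G := hx
    rw [hφ x hx']
    by_contra hcon
    simp only [Set.mem_insert_iff, Set.mem_singleton_iff, not_or] at hcon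
    have hlt := (e ⟨x, hx'⟩).isLt
    obtain ⟨y1, hy1⟩ := e.surjective ⟨(e ⟨x, hx'⟩).val - 1, by omega⟩
    obtain ⟨y2, hy2⟩ := e.surjective ⟨(e ⟨x, hx'⟩).val + 1, by omega⟩
    have ha1 : (G.induce (inner G)).Adj ⟨x, hx'⟩ y1 := by
      rw [← e.map_adj_iff, hy1, SimpleGraph.pathGraph_adj]
      right
      show (e ⟨x, hx'⟩).val - 1 + 1 = (e ⟨x, hx'⟩).val
      omega
    have ha2 : (G.induce (inner G)).Adj ⟨x, hx'⟩ y2 := by
      rw [← e.map_adj_iff, hy2, SimpleGraph.pathGraph_adj]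
      left
      rfl
    have hne : y1.1 ≠ y2.1 := by
      intro h
      have h' : y1 = y2 := Subtype.ext h
      rw [h', hy2] at hy1
      have h5 : (e ⟨x, hx'⟩).val + 1 = (e ⟨x, hx'⟩).val - 1 := congrArg Fin.val hy1
      omega
    have h3 : ({y1.1, y2.1} : Set W) ⊆ {y : W | G.Adj x y ∧ 2 ≤ (G.neighborSet y).ncard} := by
      intro z hz
      rcases hz with rfl | rfl
      · exact ⟨ha1, y1.2⟩
      · exact ⟨ha2, y2.2⟩
    have h4 := Set.ncard_le_ncard h3 (Set.toFinite _)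
    rw [Set.ncard_pair hne] at h4
    omega
  have h2 : Set.InjOn φ {x : W | 2 ≤ (G.neighborSet x).ncard ∧
      {y : W | G.Adj x y ∧ 2 ≤ (G.neighborSet y).ncard}.ncard ≤ 1} := by
    rintro x ⟨hx, -⟩ y ⟨hy, -⟩ h
    rw [hφ x hx, hφ y hy] at h
    have := e.injective (Fin.ext h)
    exact congrArg Subtype.val this
  refine (Set.ncard_le_ncard_of_injOn φ h1 h2 (Set.toFinite _)).trans ?_
  refine (Set.ncard_insert_le _ _).trans ?_
  rw [Set.ncard_singleton]

theorem exists_alpha {W : Type} [Fintype W] {G : SimpleGraph W} (hG : G.IsTree)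
    (h1 : 1 ≤ G.edgeSet.ncard) (n : ℕ)
    (e : G.induce (inner G) ≃g SimpleGraph.pathGraph n)
    (col : W → Bool) (b : Bool) (hcol : ∀ u v, G.Adj u v → col u ≠ col v) :
    ∃ (θ : ℕ) (f : W → ℕ), Function.Injective f ∧
      (∀ x, f x ≤ G.edgeSet.ncard) ∧ (∀ x, col x = b ↔ f x < θ) ∧
      ∀ u v u' v', G.Adj u v → G.Adj u' v' →
        Int.natAbs ((f u : ℤ) - (f v : ℤ)) = Int.natAbs ((f u' : ℤ) - (f v' : ℤ)) →
        s(u, v) = s(u', v') := by
  obtain ⟨M, θ, f, f1, f2, f3, f4, f5⟩ := Pool.Agent.TH56.CL.exists_relaxed' hG h1 col hcol b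
  have h2 := derived_le G n e
  have h3 : M ≤ G.edgeSet.ncard := by
    refine f5.trans ?_
    rw [Nat.sub_eq_zero_of_le h2]
    simp
  exact ⟨θ, f, f1, fun x => (f2 x).trans h3, f3, f4⟩

end Pool.Agent.H336.GW
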