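import Pool.Agent.H336.GW.Core

set_option autoImplicit false

/-! The tree obtained by deleting the leaves, and counting edge differences. -/

namespace Pool.Agent.H336.GW

open Finset

/-- the vertices which are not leaves -/
def inner {V : Type} (T : SimpleGraph V) : Set V := {x | 2 ≤ (T.neighborSet x).ncard}

theorem two_le_of {V : Type} [Finite V] {T : SimpleGraph V} {u y w : V} (h1 : T.Adj u y)
    (h2 : T.Adj u w) (h : y ≠ w) : u ∈ inner T := by
  have h3 : ({y, w} : Set V) ⊆ T.neighborSet u := by
    intro z hz
    rcases hz with rfl | rfl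
    · exact h1
    · exact h2
  calc 2 = ({y, w} : Set V).ncard := (Set.ncard_pair h).symm
    _ ≤ _ := Set.ncard_le_ncard h3 (Set.toFinite _)

theorem path_inner {V : Type} [Finite V] {T : SimpleGraph V} {x y : V} (q : T.Walk x y)
    (hq : q.IsPath) (hx : x ∈ inner T) (hy : y ∈ inner T) : ∀ z ∈ q.support, z ∈ inner T := by
  induction q with
  | nil => simpa using hx
  | @cons x u y h q' ih =>
    intro z hz
    rw [SimpleGraph.Walk.support_cons, List.mem_cons] at hz
    rcases hz with rfl | hz
    · exact hx
    · have hq' := (SimpleGraph.Walk.cons_isPath_iff h q').1 hq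
      refine ih hq'.1 ?_ hy z hz
      cases q' with
      | nil => exact hy
      | @cons _ w _ h' q'' =>
        refine two_le_of h.symm h' ?_
        rintro rfl
        apply hq'.2
        simp

theorem exists_nbr {V : Type} [Finite V] {T : SimpleGraph V} (hT : T.Connected) {x0 y : V}
    (hx : x0 ∈ inner T) (hy : y ∉ inner T) : ∃ u, T.Adj u y ∧ u ∈ inner T := by
  classical
  obtain ⟨w⟩ := hT.preconnected y x0
  have hq := w.bypass_isPath
  generalize w.bypass = q at hq
  cases q with
  | nil => exact absurd hx hy
  | @cons _ u _ h q' =>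
    have hq' := (SimpleGraph.Walk.cons_isPath_iff h q').1 hq
    refine ⟨u, h.symm, ?_⟩
    cases q' with
    | nil => exact hx
    | @cons _ w _ h' q'' =>
      refine two_le_of h.symm h' ?_
      rintro rfl
      apply hq'.2
      simp

theorem induce_tree {V : Type} [Finite V] {T : SimpleGraph V} (hT : T.IsTree)
    (hne : (inner T).Nonempty) : (T.induce (inner T)).IsTree := by
  classical
  refine ⟨?_, hT.2.induce _⟩
  rw [SimpleGraph.connected_iff]
  refine ⟨?_, ⟨⟨_, hne.some_mem⟩⟩⟩
  rintro ⟨x, hx⟩ ⟨y, hy⟩
  obtain ⟨w⟩ := hT.1.preconnected x y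
  exact (w.bypass.induce (inner T) (path_inner _ w.bypass_isPath hx hy)).reachable

/-- the difference of an edge -/
def dif {W : Type} (f : W → ℤ) : Sym2 W → ℕ :=
  Sym2.lift ⟨fun u v => Int.natAbs (f u - f v), fun u v => by
    show Int.natAbs (f u - f v) = Int.natAbs (f v - f u)
    omega⟩

theorem all_of_distinct {W : Type} [Fintype W] {G : SimpleGraph W} (f : W → ℤ) (n : ℕ)
    (hn : G.edgeSet.ncard = n)
    (hr : ∀ u v, G.Adj u v → 1 ≤ Int.natAbs (f u - f v) ∧ Int.natAbs (f u - f v) ≤ n)
    (hd : ∀ u v u' v', G.Adj u v → G.Adj u' v' →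
      Int.natAbs (f u - f v) = Int.natAbs (f u' - f v') → s(u, v) = s(u', v')) :
    ∀ j, 1 ≤ j → j ≤ n → ∃ u v, G.Adj u v ∧ Int.natAbs (f u - f v) = j := by
  classical
  intro j hj1 hj2
  have h1 := Finset.surjOn_of_injOn_of_card_le (s := G.edgeSet.toFinset) (t := Finset.Icc 1 n)
    (dif f) (by
      intro e he
      induction e using Sym2.ind with
      | _ u v =>
        have h : G.Adj u v := by simpa using he
        have := hr u v h
        simpa [dif] using this) (by
      intro e he e' he' hee
      induction e using Sym2.ind with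
      | _ u v =>
        induction e' using Sym2.ind with
        | _ u' v' =>
          have h : G.Adj u v := by simpa using he
          have h' : G.Adj u' v' := by simpa using he'
          exact hd u v u' v' h h' hee) (by
      rw [← Set.ncard_eq_toFinset_card', hn, Nat.card_Icc]
      omega)
  obtain ⟨e, he, hej⟩ := h1 (show j ∈ ((Finset.Icc 1 n : Finset ℕ) : Set ℕ) by
    simp only [Finset.coe_Icc, Set.mem_Icc]
    exact ⟨hj1, hj2⟩)
  induction e using Sym2.ind with
  | _ u v =>
    have h : G.Adj u v := by simpa using he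
    exact ⟨u, v, h, hej⟩

theorem distinct_of_all {W : Type} [Fintype W] {G : SimpleGraph W} (f : W → ℤ) (n : ℕ)
    (hn : G.edgeSet.ncard = n)
    (hr : ∀ u v, G.Adj u v → 1 ≤ Int.natAbs (f u - f v) ∧ Int.natAbs (f u - f v) ≤ n)
    (hd : ∀ j, 1 ≤ j → j ≤ n → ∃ u v, G.Adj u v ∧ Int.natAbs (f u - f v) = j) :
    ∀ u v u' v', G.Adj u v → G.Adj u' v' →
      Int.natAbs (f u - f v) = Int.natAbs (f u' - f v') → s(u, v) = s(u', v') := by
  classical
  intro u v u' v' h h' hh
  have h1 := Finset.injOn_of_surjOn_of_card_le (s := G.edgeSet.toFinset) (t := Finset.Icc 1 n)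
    (dif f) (by
      intro e he
      induction e using Sym2.ind with
      | _ u v =>
        have h : G.Adj u v := by simpa using he
        have := hr u v h
        simpa [dif] using this) (by
      intro j hj
      simp only [Finset.coe_Icc, Set.mem_Icc] at hj
      obtain ⟨u, v, h, huv⟩ := hd j hj.1 hj.2
      exact ⟨s(u, v), by simpa using h, huv⟩) (by
      rw [← Set.ncard_eq_toFinset_card', hn, Nat.card_Icc]
      omega)
  exact h1 (by simpa using h) (by simpa using h') hh

theorem edges_card {W : Type} [Fintype W] {G : SimpleGraph W} (hG : G.IsTree) :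
    G.edgeSet.ncard + 1 = Fintype.card W := by
  classical
  have h1 := hG.card_edgeFinset
  rw [Set.ncard_eq_toFinset_card', ← h1]
  rfl

end Pool.Agent.H336.GW
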