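import Mathlib

set_option autoImplicit false

/-! Walks on the grid with prescribed numbers of steps on the columns (`Sum.inl t`) and on the rows
(`Sum.inr s`). -/

namespace Pool.Agent.H336.GW

/-- `Go N m a b a' b'`: there is a walk with `N` unit steps from `(a, b)` to `(a', b')` with
`m (inl t)` vertical steps on the column `t` and `m (inr s)` horizontal steps on the row `s`, and no
other steps -/
inductive Go : ℕ → (ℕ ⊕ ℕ → ℕ) → ℤ → ℤ → ℤ → ℤ → Prop
  | nil (a b : ℤ) : Go 0 0 a b a b
  | up {N : ℕ} {m : ℕ ⊕ ℕ → ℕ} {b a' b' : ℤ} (t : ℕ) (h : Go N m t (b + 1) a' b') :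
      Go (N + 1) (m + Pi.single (Sum.inl t) 1) t b a' b'
  | down {N : ℕ} {m : ℕ ⊕ ℕ → ℕ} {b a' b' : ℤ} (t : ℕ) (h : Go N m t (b - 1) a' b') :
      Go (N + 1) (m + Pi.single (Sum.inl t) 1) t b a' b'
  | right {N : ℕ} {m : ℕ ⊕ ℕ → ℕ} {a a' b' : ℤ} (s : ℕ) (h : Go N m (a + 1) s a' b') :
      Go (N + 1) (m + Pi.single (Sum.inr s) 1) a s a' b'
  | left {N : ℕ} {m : ℕ ⊕ ℕ → ℕ} {a a' b' : ℤ} (s : ℕ) (h : Go N m (a - 1) s a' b') :
      Go (N + 1) (m + Pi.single (Sum.inr s) 1) a s a' b'

theorem Go.trans {N N' : ℕ} {m m' : ℕ ⊕ ℕ → ℕ} {a b a' b' a'' b'' : ℤ} (h : Go N m a b a' b')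
    (h' : Go N' m' a' b' a'' b'') : Go (N + N') (m + m') a b a'' b'' := by
  induction h with
  | nil a b => simpa using h'
  | up t h ih =>
    have := Go.up t (ih h')
    convert this using 1
    · ring
    · rw [add_assoc, add_assoc, add_comm m']
  | down t h ih =>
    have := Go.down t (ih h')
    convert this using 1
    · ring
    · rw [add_assoc, add_assoc, add_comm m']
  | right t h ih =>
    have := Go.right t (ih h')
    convert this using 1
    · ring
    · rw [add_assoc, add_assoc, add_comm m']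
  | left t h ih =>
    have := Go.left t (ih h')
    convert this using 1
    · ring
    · rw [add_assoc, add_assoc, add_comm m']

/-- a closed walk, the number of steps is not mentioned -/
def Cl (m : ℕ ⊕ ℕ → ℕ) (a b : ℤ) : Prop := ∃ N, Go N m a b a b

theorem Cl.add {m m' : ℕ ⊕ ℕ → ℕ} {a b : ℤ} (h : Cl m a b) (h' : Cl m' a b) : Cl (m + m') a b := by
  obtain ⟨N, h⟩ := h
  obtain ⟨N', h'⟩ := h'
  exact ⟨_, h.trans h'⟩

theorem Cl.down {m : ℕ ⊕ ℕ → ℕ} {t : ℕ} {b : ℤ} (h : Cl m t (b - 1)) :
    Cl (m + Pi.single (Sum.inl t) 2) t b := by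
  obtain ⟨N, h⟩ := h
  have h1 : Go 1 (0 + Pi.single (Sum.inl t) 1) (t : ℤ) (b - 1) t b := by
    refine Go.up t ?_
    rw [sub_add_cancel]
    exact Go.nil _ _
  have h2 := Go.down t (h.trans h1)
  refine ⟨N + 1 + 1, ?_⟩
  convert h2 using 1
  rw [zero_add, add_assoc, ← Pi.single_add]

theorem Cl.left {m : ℕ ⊕ ℕ → ℕ} {s : ℕ} {a : ℤ} (h : Cl m (a - 1) s) :
    Cl (m + Pi.single (Sum.inr s) 2) a s := by
  obtain ⟨N, h⟩ := h
  have h1 : Go 1 (0 + Pi.single (Sum.inr s) 1) (a - 1) (s : ℤ) a s := by
    refine Go.right s ?_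
    rw [sub_add_cancel]
    exact Go.nil _ _
  have h2 := Go.left s (h.trans h1)
  refine ⟨N + 1 + 1, ?_⟩
  convert h2 using 1
  rw [zero_add, add_assoc, ← Pi.single_add]

theorem Cl.zero (a b : ℤ) : Cl 0 a b := ⟨0, Go.nil a b⟩

theorem Cl.pairsV (t : ℕ) (b : ℤ) (c : ℕ) : Cl (Pi.single (Sum.inl t) (2 * c)) t b := by
  induction c with
  | zero => simpa using Cl.zero t b
  | succ c ih =>
    have h := Cl.add ih (Cl.down (Cl.zero t (b - 1)))
    convert h using 1
    rw [zero_add, ← Pi.single_add]
    rfl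

theorem Cl.pairsH (s : ℕ) (a : ℤ) (c : ℕ) : Cl (Pi.single (Sum.inr s) (2 * c)) a s := by
  induction c with
  | zero => simpa using Cl.zero a s
  | succ c ih =>
    have h := Cl.add ih (Cl.left (Cl.zero (a - 1) s))
    convert h using 1
    rw [zero_add, ← Pi.single_add]
    rfl

/-- `2 c t` vertical steps on the columns `t ≤ a`, `2 d s` horizontal steps on the rows `s ≤ b` -/
def MM (c d : ℕ → ℕ) (a b : ℕ) : ℕ ⊕ ℕ → ℕ :=
  Sum.elim (fun t => if t ≤ a then 2 * c t else 0) (fun s => if s ≤ b then 2 * d s else 0)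

theorem MM_left (c d : ℕ → ℕ) (a b : ℕ) (h : 1 ≤ d b) :
    MM c d (a + 1) b = (MM c (Function.update d b (d b - 1)) a b + Pi.single (Sum.inr b) 2) +
      Pi.single (Sum.inl (a + 1)) (2 * c (a + 1)) := by
  funext x
  rcases x with t | s
  · simp only [MM, Sum.elim_inl, Pi.add_apply]
    rw [Pi.single_eq_of_ne (by simp)]
    by_cases h1 : t = a + 1
    · subst h1
      simp
    · rw [Pi.single_eq_of_ne (by simpa using h1)]
      by_cases h2 : t ≤ a
      · simp [h2, Nat.le_succ_of_le h2]
      · simp [h2, show ¬ t ≤ a + 1 by omega]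
  · simp only [MM, Sum.elim_inr, Pi.add_apply]
    rw [Pi.single_eq_of_ne (i := Sum.inl (a + 1)) (by simp)]
    by_cases h1 : s = b
    · subst h1
      simp
      omega
    · rw [Pi.single_eq_of_ne (by simpa using h1), Function.update_of_ne h1]
      simp

theorem MM_down (c d : ℕ → ℕ) (a b : ℕ) (h : 1 ≤ c a) :
    MM c d a (b + 1) = (MM (Function.update c a (c a - 1)) d a b + Pi.single (Sum.inl a) 2) +
      Pi.single (Sum.inr (b + 1)) (2 * d (b + 1)) := by
  funext x
  rcases x with t | s
  · simp only [MM, Sum.elim_inl, Pi.add_apply]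
    rw [Pi.single_eq_of_ne (i := Sum.inr (b + 1)) (by simp)]
    by_cases h1 : t = a
    · subst h1
      simp
      omega
    · rw [Pi.single_eq_of_ne (by simpa using h1), Function.update_of_ne h1]
      simp
  · simp only [MM, Sum.elim_inr, Pi.add_apply]
    rw [Pi.single_eq_of_ne (by simp)]
    by_cases h1 : s = b + 1
    · subst h1
      simp
    · rw [Pi.single_eq_of_ne (by simpa using h1)]
      by_cases h2 : s ≤ b
      · simp [h2, Nat.le_succ_of_le h2]
      · simp [h2, show ¬ s ≤ b + 1 by omega]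

theorem MM_zero (c d : ℕ → ℕ) :
    MM c d 0 0 = Pi.single (Sum.inl 0) (2 * c 0) + Pi.single (Sum.inr 0) (2 * d 0) := by
  funext x
  rcases x with t | s
  · simp only [MM, Sum.elim_inl, Pi.add_apply]
    rw [Pi.single_eq_of_ne (i := Sum.inr 0) (by simp)]
    by_cases h1 : t = 0
    · subst h1
      simp
    · rw [Pi.single_eq_of_ne (by simpa using h1)]
      simp [h1]
  · simp only [MM, Sum.elim_inr, Pi.add_apply]
    rw [Pi.single_eq_of_ne (i := Sum.inl 0) (by simp)]
    by_cases h1 : s = 0
    · subst h1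
      simp
    · rw [Pi.single_eq_of_ne (by simpa using h1)]
      simp [h1]

theorem stair : ∀ (N a b : ℕ) (c d : ℕ → ℕ), a + b = N → (∀ t < a, 1 ≤ c t) → (∀ s < b, 1 ≤ d s) →
    a ≤ ∑ s ∈ Finset.range (b + 1), d s → b ≤ a + min 1 (c a) → (b = 0 ∨ 1 ≤ c a ∨ 1 ≤ d b) →
    Cl (MM c d a b) a b := by
  intro N
  induction N with
  | zero =>
    intro a b c d hN _ _ _ _ _
    obtain rfl : a = 0 := by omega
    obtain rfl : b = 0 := by omega
    rw [MM_zero]
    exact Cl.add (Cl.pairsV 0 _ _) (Cl.pairsH 0 _ _)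
  | succ N ih =>
    intro a b c d hN hc hd hs h4 h5
    have goleft : 1 ≤ a → 1 ≤ d b → b ≤ a → Cl (MM c d a b) a b := by
      intro ha hdb hba
      obtain ⟨a, rfl⟩ := Nat.exists_eq_succ_of_ne_zero (show a ≠ 0 by omega)
      rw [Nat.succ_eq_add_one] at *
      rw [MM_left c d a b hdb]
      refine Cl.add (Cl.left ?_) (Cl.pairsV _ _ _)
      have h := ih a b c (Function.update d b (d b - 1)) (by omega) (fun t ht => hc t (by omega))
        (fun s hs' => by
          rw [Function.update_of_ne (by omega)]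
          exact hd s hs') ?_ ?_ ?_
      · simpa using h
      · have hsum : ∑ s ∈ Finset.range b, Function.update d b (d b - 1) s =
            ∑ s ∈ Finset.range b, d s := Finset.sum_congr rfl (fun s hs' =>
              Function.update_of_ne (by rw [Finset.mem_range] at hs'; omega) _ _)
        rw [Finset.sum_range_succ, hsum, Function.update_self]
        rw [Finset.sum_range_succ] at hs
        omega
      · have := hc a (by omega)
        omega
      · right; left
        exact hc a (by omega)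
    rcases Nat.eq_zero_or_pos b with hb | hb
    · subst hb
      have ha : 1 ≤ a := by omega
      refine goleft ha ?_ (by omega)
      simp at hs
      omega
    · have hS : b ≤ ∑ s ∈ Finset.range b, d s := by
        calc b = ∑ s ∈ Finset.range b, 1 := by simp
          _ ≤ _ := Finset.sum_le_sum (fun s hs' => hd s (Finset.mem_range.1 hs'))
      by_cases hcase : 1 ≤ c a ∧ a ≤ ∑ s ∈ Finset.range b, d s
      · obtain ⟨hca, hsa⟩ := hcase
        obtain ⟨b, rfl⟩ := Nat.exists_eq_succ_of_ne_zero (show b ≠ 0 by omega)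
        rw [Nat.succ_eq_add_one] at *
        rw [MM_down c d a b hca]
        refine Cl.add (Cl.down ?_) (Cl.pairsH _ _ _)
        have h := ih a b (Function.update c a (c a - 1)) d (by omega)
          (fun t ht => by
            rw [Function.update_of_ne (by omega)]
            exact hc t ht) (fun s hs' => hd s (by omega)) hsa (by omega)
          (by right; right; exact hd b (by omega))
        simpa using h
      · rw [Finset.sum_range_succ] at hs
        have h6 : b ≤ a ∧ 1 ≤ d b := by
          by_cases hca : 1 ≤ c a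
          · have : ¬ a ≤ ∑ s ∈ Finset.range b, d s := fun h => hcase ⟨hca, h⟩
            omega
          · rcases h5 with h5 | h5 | h5
            · omega
            · exact absurd h5 hca
            · omega
        exact goleft (by omega) h6.2 h6.1

end Pool.Agent.H336.GW
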